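import Mathlib
import Pool.Agent.Y827.HN.Pat

/-!
# All patterns of primes and composite numbers on a subset of a transversal, the other elements being composite

`patT` is `Pool.Agent.Y827.HN.patR` with a stronger conclusion, which is contained in its proof.
-/

set_option autoImplicit false

namespace Pool.Agent.P8H6.Nar

open Finset Filter Topology
open Pool.Agent.W25.QL
open Pool.Agent.Y827.LS
open Pool.Agent.Y827.GS
open Pool.Agent.Y827.RO
open Pool.Agent.Y827.HN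

/-- the coloured theorem with all patterns, on whole transversals -/
theorem patT (T M : ℕ) (hT : 1 ≤ T) (hTM : (18 / 5 : ℝ) * M < T) : ∃ K' : ℕ, 1 ≤ K' ∧
    ∀ H : Fin T → Fin K' → ℤ × ℤ, Function.Injective (fun x : Fin T × Fin K' => H x.1 x.2) →
    (∀ g i, 0 < (H g i).1 ∧ IsCoprime (H g i).1 (H g i).2) →
    (∀ p : ℕ, p.Prime → p ≤ T * K' → ∃ r : ℤ, ∀ g i, ¬ (p : ℤ) ∣ (H g i).1 * r + (H g i).2) →
    ∀ U : Finset (ℤ × ℤ), (∀ u ∈ U, 0 < u.1 ∧ IsCoprime u.1 u.2 ∧ ∀ g i, u ≠ H g i) →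
    ∀ l : ℕ, ∃ C : ℕ, ∀ᶠ N : ℕ in atTop, ∃ (S : Finset (Fin T)) (cc : Fin T → Fin K'),
      M + 1 ≤ S.card ∧ ∀ S', S' ⊆ S → QX l C N (S'.image (fun g => H g (cc g)))
        ((univ \ S').image (fun g => H g (cc g)) ∪ U) := by
  classical
  obtain ⟨K, hK, hnar⟩ := narR T M hT hTM
  obtain ⟨N0, hN0⟩ := Pool.Agent.H362R2.CM.box_lemma T (K + 1) (1 / (2 : ℝ) ^ (2 ^ T)) (by positivity)
  obtain ⟨K', hK'⟩ : ∃ K', K' = max N0 (K + 1) := ⟨_, rfl⟩
  have hKK' : K + 1 ≤ K' := by omega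
  have hN0K' : N0 ≤ K' := by omega
  refine ⟨K', by omega, fun H hinj hpos hloc U hU l => ?_⟩
  have hinj1 : ∀ g g' i i', H g i = H g' i' → g = g' ∧ i = i' := by
    intro g g' i i' h
    have := hinj (a₁ := (g, i)) (a₂ := (g', i')) h
    exact ⟨congrArg Prod.fst this, congrArg Prod.snd this⟩
  have hfor : ∀ A : Fin T → Fin (K + 1) → Fin K', ∃ C : ℕ, ∀ᶠ N : ℕ in atTop,
      (∀ g, Function.Injective (A g)) → ∃ (S : Finset (Fin T)) (σ : Fin T → Fin K),
        M + 1 ≤ S.card ∧ QX l C N (S.image (fun g => H g (A g (Fin.castSucc (σ g)))))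
          (univ.image (fun g => H g (A g (Fin.last K))) ∪ U) := by
    intro A
    by_cases hA : ∀ g, Function.Injective (A g)
    swap
    · exact ⟨0, Eventually.of_forall fun N h => absurd h hA⟩
    obtain ⟨C, hC⟩ := forced hnar (fun g i => H g (A g (Fin.castSucc i)))
      (Sum.elim (fun g : Fin T => H g (A g (Fin.last K))) (fun u : U => (u : ℤ × ℤ)))
      (fun x y hxy => by
        obtain ⟨h1, h2⟩ := hinj1 _ _ _ _ hxy
        have h3 : A x.1 (Fin.castSucc x.2) = A x.1 (Fin.castSucc y.2) := by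
          rw [h2, h1]
        exact Prod.ext h1 (Fin.castSucc_injective _ (hA _ h3)))
      (fun y g' i h => by
        cases y with
        | inl g =>
          obtain ⟨h1, h2⟩ := hinj1 _ _ _ _ h
          subst h1
          exact (Fin.castSucc_lt_last i).ne' (hA _ h2)
        | inr u => exact (hU u u.2).2.2 _ _ h)
      (fun g i => hpos _ _) (fun y => by
        cases y with
        | inl g => exact hpos _ _
        | inr u => exact ⟨(hU u u.2).1, (hU u u.2).2.1⟩)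
      (fun p hp hpT => by
        obtain ⟨r, hr⟩ := hloc p hp (hpT.trans (Nat.mul_le_mul_left _ (by omega)))
        exact ⟨r, fun g i => hr _ _⟩) l
    refine ⟨C, ?_⟩
    filter_upwards [hC] with N hN _
    obtain ⟨S, σ, h1, h2⟩ := hN
    refine ⟨S, σ, h1, QX_anti (Subset.refl _) ?_ h2⟩
    intro f hf
    rcases mem_union.1 hf with hf | hf
    · obtain ⟨g, -, rfl⟩ := mem_image.1 hf
      exact mem_image.2 ⟨Sum.inl g, mem_univ _, rfl⟩
    · exact mem_image.2 ⟨Sum.inr ⟨f, hf⟩, mem_univ _, rfl⟩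
  choose CC hCC using hfor
  set C : ℕ := ∑ A : Fin T → Fin (K + 1) → Fin K', CC A with hCdef
  have hCle : ∀ A, CC A ≤ C := fun A => single_le_sum (f := CC) (fun _ _ => Nat.zero_le _) (mem_univ A)
  refine ⟨C, ?_⟩
  filter_upwards [eventually_all.2 hCC, eventually_ge_atTop 3] with N hN hN3
  -- the colouring
  set col : (Fin T → Fin K') → Finset (Finset (Fin T)) := fun φ =>
    univ.filter (fun S' => QX l C N (S'.image (fun g => H g (φ g)))
      ((univ \ S').image (fun g => H g (φ g)) ∪ U)) with hcol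
  obtain ⟨c, -, hc⟩ := Finset.exists_le_card_fiber_of_nsmul_le_card_of_maps_to
    (s := (univ : Finset (Fin T → Fin K'))) (t := (univ : Finset (Finset (Finset (Fin T)))))
    (f := col) (fun _ _ => mem_univ _) ⟨∅, mem_univ _⟩
    (b := 1 / (2 : ℝ) ^ (2 ^ T) * (K' : ℝ) ^ T) (by
      rw [nsmul_eq_mul, card_univ, card_univ, Fintype.card_finset, Fintype.card_finset, Fintype.card_fin,
        Fintype.card_fun, Fintype.card_fin, Fintype.card_fin]
      push_cast
      rw [← mul_assoc, mul_one_div, div_self (by positivity), one_mul])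
  obtain ⟨A, hA1, hA2⟩ := hN0 (Fin K') (fun _ => univ) (fun _ => by rw [card_univ, Fintype.card_fin]; exact hN0K')
    ((univ : Finset (Fin T → Fin K')).filter (fun φ => col φ = c))
    (fun φ _ => Fintype.mem_piFinset.2 fun _ => mem_univ _)
    (by
      rw [prod_const, card_univ, card_univ, Fintype.card_fin, Fintype.card_fin]
      exact hc)
  have hA3 : ∀ cc : Fin T → Fin (K + 1), col (fun i => A i (cc i)) = c := fun cc => (mem_filter.1 (hA2 cc)).2
  obtain ⟨S, σ, hS, hQ⟩ := hN A hA1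
  have hQ' := QX_mono hN3 (hCle A) hQ
  -- the patterns
  have hmem : ∀ S', S' ⊆ S → S' ∈ c := by
    intro S' hS'
    rw [← hA3 (fun g => if g ∈ S' then Fin.castSucc (σ g) else Fin.last K), hcol]
    refine mem_filter.2 ⟨mem_univ _, QX_anti ?_ ?_ hQ'⟩
    · intro f hf
      obtain ⟨g, hg, rfl⟩ := mem_image.1 hf
      refine mem_image.2 ⟨g, hS' hg, ?_⟩
      simp only [if_pos hg]
    · intro f hf
      rcases mem_union.1 hf with hf | hf
      · obtain ⟨g, hg, rfl⟩ := mem_image.1 hf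
        refine mem_union_left _ (mem_image.2 ⟨g, mem_univ _, ?_⟩)
        have : g ∉ S' := (mem_sdiff.1 hg).2
        simp only [if_neg this]
      · exact mem_union_right _ hf
  refine ⟨S, fun g => A g (Fin.castSucc (σ g)), hS, fun S' hS' => ?_⟩
  have h1 : S' ∈ c := hmem S' hS'
  rw [← hA3 (fun g => Fin.castSucc (σ g)), hcol, mem_filter] at h1
  exact h1.2

theorem patTD (T : ℕ) : ∃ K : ℕ, 1 ≤ K ∧ (1 ≤ T → ∀ H : Fin T → Fin K → ℤ × ℤ,
    Function.Injective (fun x : Fin T × Fin K => H x.1 x.2) →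
    (∀ g i, 0 < (H g i).1 ∧ IsCoprime (H g i).1 (H g i).2) →
    (∀ p : ℕ, p.Prime → p ≤ T * K → ∃ r : ℤ, ∀ g i, ¬ (p : ℤ) ∣ (H g i).1 * r + (H g i).2) →
    ∀ U : Finset (ℤ × ℤ), (∀ u ∈ U, 0 < u.1 ∧ IsCoprime u.1 u.2 ∧ ∀ g i, u ≠ H g i) →
    ∀ l : ℕ, ∃ C : ℕ, ∀ᶠ N : ℕ in atTop, ∃ (S : Finset (Fin T)) (c : Fin T → Fin K),
      (T : ℝ) ≤ (18 / 5) * (S.card : ℝ) ∧ ∀ S', S' ⊆ S → QX l C N (S'.image (fun g => H g (c g)))
        ((univ \ S').image (fun g => H g (c g)) ∪ U)) := by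
  rcases Nat.eq_zero_or_pos T with rfl | hT
  · exact ⟨1, le_rfl, fun h => absurd h (by norm_num)⟩
  obtain ⟨M, hM1, hM2⟩ := ceilM T hT
  obtain ⟨K, hK, h⟩ := patT T M hT hM1
  refine ⟨K, hK, fun _ H hinj hpos hloc U hU l => ?_⟩
  obtain ⟨C, hC⟩ := h H hinj hpos hloc U hU l
  refine ⟨C, ?_⟩
  filter_upwards [hC] with N hN
  obtain ⟨S, c, hS, hc⟩ := hN
  refine ⟨S, c, hM2.trans (mul_le_mul_of_nonneg_left ?_ (by norm_num)), hc⟩
  exact_mod_cast hS

end Pool.Agent.P8H6.Nar
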