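import Mathlib
import Pool.Agent.P8H6.Nar.Full
import Pool.Agent.P8H6.Blk.Almost

/-!
# Almost every admissible set contains a large subset whose sub-patterns occur along narrow progressions
-/

set_option autoImplicit false

namespace Pool.Agent.P8H6.Nar

open Finset Filter Topology
open Pool.Agent.Y827.HN
open Pool.Agent.P8H6.Blk (Adm sub_box adm_large)

/-- `n ≡ b` modulo `q`, and of the numbers `n + v`, `v ∈ V`, exactly those with `v ∈ J` are prime -/
def Pt (q b : ℕ) (V J : Finset ℤ) (n : ℕ) : Prop :=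
  n ≡ b [MOD q] ∧ ∀ v ∈ V, (((n : ℤ) + v).toNat.Prime ↔ v ∈ J)

/-- for every length `l` there is `C` such that for arbitrarily large `x` every pattern `J ⊆ F` has a
difference `1 ≤ D ≤ (log x) ^ C` for which at least `x / (log x) ^ C` of the `1 ≤ m ≤ x` are such that the
pattern occurs at `m, m + D, ..., m + (l - 1) D`, with no further primes in the translates of `V` -/
def Nr (q b : ℕ) (V F : Finset ℤ) : Prop :=
  ∀ l : ℕ, ∃ C : ℕ, ∃ᶠ x : ℕ in atTop, ∀ J ⊆ F, ∃ D : ℕ, 1 ≤ D ∧ (D : ℝ) ≤ Real.log x ^ C ∧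
    (x : ℝ) / Real.log x ^ C ≤
      ({m : ℕ | 1 ≤ m ∧ m ≤ x ∧ ∀ j < l, Pt q b V J (m + j * D)}.ncard : ℝ)

/-- one length -/
def Nl (q b : ℕ) (V F : Finset ℤ) (l : ℕ) : Prop :=
  ∃ C : ℕ, ∃ᶠ x : ℕ in atTop, ∀ J ⊆ F, ∃ D : ℕ, 1 ≤ D ∧ (D : ℝ) ≤ Real.log x ^ C ∧
    (x : ℝ) / Real.log x ^ C ≤
      ({m : ℕ | 1 ≤ m ∧ m ≤ x ∧ ∀ j < l, Pt q b V J (m + j * D)}.ncard : ℝ)

theorem Nl_mono {q b : ℕ} {V F : Finset ℤ} {l l' : ℕ} (h : l' ≤ l) (hl : Nl q b V F l) : Nl q b V F l' := by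
  obtain ⟨C, hC⟩ := hl
  refine ⟨C, hC.mono fun x hx J hJ => ?_⟩
  obtain ⟨D, h1, h2, h3⟩ := hx J hJ
  refine ⟨D, h1, h2, h3.trans ?_⟩
  rw [Nat.cast_le]
  apply Set.ncard_le_ncard
  · rintro m ⟨h4, h5, h6⟩
    exact ⟨h4, h5, fun j hj => h6 j (by omega)⟩
  · exact (Set.finite_Iic x).subset fun m hm => hm.2.1

/-- all patterns in `F`, inside `V` -/
def AX (q b : ℕ) (V F : Finset ℤ) (l C N : ℕ) : Prop :=
  ∀ J ⊆ F, QX l C N (J.image (fun f => ((q : ℤ), (b : ℤ) + f))) ((V \ J).image (fun f => ((q : ℤ), (b : ℤ) + f)))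

/-- from the forms to the translates -/
theorem trans {q b : ℕ} (hq : 1 ≤ q) (V F : Finset ℤ) (l C N : ℕ)
    (h : AX q b V F l C N) (J : Finset ℤ) (hJ : J ⊆ F) :
    ∃ d : ℕ, 1 ≤ d ∧ (d : ℝ) ≤ Real.log N ^ C ∧ (N : ℝ) / Real.log N ^ C ≤
      ({m : ℕ | 1 ≤ m ∧ m ≤ q * N + b ∧ ∀ j < l, Pt q b V J (m + j * (q * d))}.ncard : ℝ) := by
  classical
  obtain ⟨d, hd1, hd2, hd3⟩ := h J hJ
  refine ⟨d, hd1, hd2, hd3.trans ?_⟩
  rw [Nat.cast_le]
  unfold cntX
  rw [← Set.ncard_coe_finset]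
  refine Set.ncard_le_ncard_of_injOn (fun n : ℕ => q * n + b) ?_ ?_
    ((Set.finite_Iic (q * N + b)).subset fun m hm => hm.2.1)
  · intro n hn
    rw [mem_coe, mem_filter, mem_Icc] at hn
    obtain ⟨⟨hn1, hn2⟩, hn3⟩ := hn
    refine ⟨?_, ?_, ?_⟩
    · have : 1 * 1 ≤ q * n := Nat.mul_le_mul hq (by omega)
      show 1 ≤ q * n + b
      omega
    · have : q * n ≤ q * N := Nat.mul_le_mul_left _ hn2
      show q * n + b ≤ q * N + b
      omega
    · intro j hj
      obtain ⟨h1, h2⟩ := hn3 j hj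
      have hm : ((q * n + b + j * (q * d) : ℕ) : ℤ) = (q : ℤ) * ((n + j * d : ℕ) : ℤ) + b := by
        push_cast; ring
      refine ⟨?_, ?_⟩
      · show q * n + b + j * (q * d) ≡ b [MOD q]
        have h3 : q * n + b + j * (q * d) = b + q * (n + j * d) := by ring
        rw [h3]
        exact (Nat.modEq_iff_dvd' (by omega)).2 ⟨n + j * d, by omega⟩ |>.symm
      · intro f hf
        show (((q * n + b + j * (q * d) : ℕ) : ℤ) + f).toNat.Prime ↔ f ∈ J
        rw [hm]
        have h3 : (q : ℤ) * ((n + j * d : ℕ) : ℤ) + b + f =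
            (q : ℤ) * ((n + j * d : ℕ) : ℤ) + (b + f) := by ring
        rw [h3]
        constructor
        · intro hp
          by_contra hfJ
          exact h2 ((q : ℤ), (b : ℤ) + f) (mem_image.2 ⟨f, Finset.mem_sdiff.2 ⟨hf, hfJ⟩, rfl⟩) hp
        · intro hfJ
          exact h1 ((q : ℤ), (b : ℤ) + f) (mem_image.2 ⟨f, hfJ, rfl⟩)
  · intro n _ n' _ he
    have he' : q * n + b = q * n' + b := he
    exact Nat.eq_of_mul_eq_mul_left hq (by omega)

/-- from frequently many `N` to the property -/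
theorem nl_of {q b : ℕ} (hq : 1 ≤ q) (V F : Finset ℤ) (l C : ℕ)
    (h : ∃ᶠ N : ℕ in atTop, AX q b V F l C N) :
    Nl q b V F l := by
  classical
  refine ⟨C + 1, ?_⟩
  have htend : Tendsto (fun N : ℕ => q * N + b) atTop atTop := by
    refine tendsto_atTop_mono (fun N => ?_) tendsto_id
    show N ≤ q * N + b
    nlinarith
  refine htend.frequently ?_
  -- eventually the logarithms are large
  have hlog : Tendsto (fun N : ℕ => Real.log (N : ℝ)) atTop atTop :=
    Real.tendsto_log_atTop.comp tendsto_natCast_atTop_atTop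
  have hev : ∀ᶠ N : ℕ in atTop, 3 ≤ N ∧ ((q + b : ℕ) : ℝ) ≤ Real.log (N : ℝ) ∧ 1 ≤ Real.log (N : ℝ) := by
    filter_upwards [eventually_ge_atTop 3, hlog.eventually_ge_atTop ((q + b : ℕ) : ℝ),
      hlog.eventually_ge_atTop 1] with N h1 h2 h3
    exact ⟨h1, h2, h3⟩
  refine (h.and_eventually hev).mono ?_
  rintro N ⟨hN, hN3, hNl, hN1⟩ J hJ
  obtain ⟨d, hd1, hd2, hd3⟩ := trans hq V F l C N hN J hJ
  have hN0 : (0 : ℝ) < N := by exact_mod_cast (by omega : 0 < N)
  have hNx : (N : ℝ) ≤ ((q * N + b : ℕ) : ℝ) := by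
    have : N ≤ q * N + b := by nlinarith
    exact_mod_cast this
  have hll : Real.log N ≤ Real.log ((q * N + b : ℕ) : ℝ) := Real.log_le_log hN0 hNx
  have hL0 : 0 < Real.log (N : ℝ) := by linarith
  refine ⟨q * d, Nat.mul_pos hq hd1, ?_, ?_⟩
  · push_cast
    have h1 : (q : ℝ) ≤ Real.log N := by
      refine le_trans ?_ hNl
      push_cast
      have : (0 : ℝ) ≤ b := Nat.cast_nonneg b
      linarith
    have h2 : Real.log N ≤ Real.log ((q : ℝ) * N + b) := by
      have := hll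
      push_cast at this
      exact this
    calc (q : ℝ) * d ≤ Real.log N * Real.log N ^ C := by
          apply mul_le_mul h1 hd2 (Nat.cast_nonneg _) hL0.le
      _ = Real.log N ^ (C + 1) := by ring
      _ ≤ Real.log ((q : ℝ) * N + b) ^ (C + 1) := pow_le_pow_left₀ hL0.le h2 _
  · refine le_trans ?_ hd3
    -- `x / (log x) ^ (C + 1) ≤ N / (log N) ^ C`
    have hLx : 0 < Real.log ((q * N + b : ℕ) : ℝ) := hL0.trans_le hll
    rw [div_le_div_iff₀ (by positivity) (by positivity)]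
    have h1 : ((q * N + b : ℕ) : ℝ) ≤ N * Real.log N := by
      have h2 : ((q * N + b : ℕ) : ℝ) ≤ N * ((q + b : ℕ) : ℝ) := by
        have : q * N + b ≤ N * (q + b) := by nlinarith
        exact_mod_cast this
      exact h2.trans (mul_le_mul_of_nonneg_left hNl hN0.le)
    calc ((q * N + b : ℕ) : ℝ) * Real.log N ^ C ≤ (N * Real.log N) * Real.log N ^ C := by
          apply mul_le_mul_of_nonneg_right h1 (by positivity)
      _ = N * Real.log N ^ (C + 1) := by ring
      _ ≤ N * Real.log ((q * N + b : ℕ) : ℝ) ^ (C + 1) := by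
          apply mul_le_mul_of_nonneg_left _ hN0.le
          exact pow_le_pow_left₀ hL0.le hll _

/-- the exceptional tuples -/
def IsExc (q b : ℕ) {T : ℕ} (v : Fin T → ℤ) : Prop :=
  Function.Injective v ∧ Adm v ∧ (∀ i, IsCoprime (q : ℤ) ((b : ℤ) + v i)) ∧
    ¬ ∃ F : Finset ℤ, F ⊆ univ.image v ∧ (T : ℝ) ≤ 18 / 5 * (F.card : ℝ) ∧ Nr q b (univ.image v) F

open Classical in
/-- the exceptional tuples -/
noncomputable def Exc (q b : ℕ) {T : ℕ} (V : Fin T → Finset ℤ) : Finset (Fin T → ℤ) :=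
  (Fintype.piFinset V).filter (fun v => IsExc q b v)

theorem no_box (T : ℕ) (hT : 1 ≤ T) : ∃ K' : ℕ, ∀ (q b : ℕ), 1 ≤ q →
    ∀ V : Fin T → Finset ℤ, ¬ ∃ A : Fin T → Fin K' → ℤ, (∀ i, Function.Injective (A i)) ∧
      ∀ c : Fin T → Fin K', (fun i => A i (c i)) ∈ Exc q b V := by
  classical
  obtain ⟨K, hK, hpat⟩ := patTD T
  have hpat := hpat hT
  refine ⟨primorial (T * K) * K, ?_⟩
  rintro q b hq V ⟨A, hA1, hA2⟩
  obtain ⟨e, he1, he2⟩ := sub_box K (primorial (T * K)) (primorial_pos _) le_rfl A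
  have hK0 : 0 < K := by omega
  have hprop : ∀ c : Fin T → Fin K, IsExc q b (fun i => A i (e i (c i))) := by
    intro c
    have h1 := hA2 (fun i => e i (c i))
    unfold Exc at h1
    exact (mem_filter.1 h1).2
  have hinj : Function.Injective (fun x : Fin T × Fin K => A x.1 (e x.1 x.2)) := by
    rintro ⟨i, j⟩ ⟨i', j'⟩ hh
    simp only at hh
    by_cases hii : i = i'
    · subst hii
      have h1 := he1 i (hA1 i hh)
      rw [h1]
    · exfalso
      have h1 := (hprop (fun x => if x = i then j else j')).1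
      have h2 := @h1 i i' (by
        simp only [if_true, Ne.symm hii, if_false]
        exact hh)
      exact hii h2
  have hadm : ∀ p : ℕ, p.Prime → p ≤ T * K → ∃ n : ℤ, ∀ i j, ¬ (p : ℤ) ∣ n + A i (e i j) := by
    intro p hp hle
    obtain ⟨n, hn⟩ := (hprop (fun _ => ⟨0, hK0⟩)).2.1 p hp
    refine ⟨n, fun i j hd => hn i ?_⟩
    have h1 : (p : ℤ) ∣ (primorial (T * K) : ℤ) := by
      have : p ∣ primorial (T * K) := by
        unfold primorial
        exact dvd_prod_of_mem _ (by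
          rw [mem_filter, mem_range]
          exact ⟨by omega, hp⟩)
      exact_mod_cast this
    have h2 := h1.trans (he2 i ⟨0, hK0⟩ j)
    have h3 : n + A i (e i ⟨0, hK0⟩) =
        (n + A i (e i j)) + (A i (e i ⟨0, hK0⟩) - A i (e i j)) := by ring
    simp only
    rw [h3]
    exact dvd_add hd h2
  have hqZ : (0 : ℤ) < q := by exact_mod_cast hq
  have hcop : ∀ i j, IsCoprime (q : ℤ) ((b : ℤ) + A i (e i j)) := fun i j =>
    (hprop (fun _ => j)).2.2.1 i
  have hmain := hpat (fun i j => ((q : ℤ), (b : ℤ) + A i (e i j)))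
    (by
      intro x y hxy
      apply hinj
      have h1 := (Prod.mk.inj hxy).2
      simp only at h1 ⊢
      linarith)
    (fun i j => ⟨hqZ, hcop i j⟩)
    (by
      intro p hp hpT
      by_cases hpq : p ∣ q
      · refine ⟨0, fun i j hd => ?_⟩
        have h1 : (p : ℤ) ∣ (b : ℤ) + A i (e i j) := by simpa using hd
        have h2 : (p : ℤ) ∣ q := Int.natCast_dvd_natCast.2 hpq
        obtain ⟨u, w, huw⟩ := hcop i j
        have h3 : (p : ℤ) ∣ 1 := huw ▸ dvd_add (dvd_mul_of_dvd_right h2 u) (dvd_mul_of_dvd_right h1 w)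
        exact (Nat.prime_iff_prime_int.1 hp).not_dvd_one h3
      · obtain ⟨n, hn⟩ := hadm p hp hpT
        have hpZ : Prime (p : ℤ) := Nat.prime_iff_prime_int.1 hp
        have h1 : IsCoprime (q : ℤ) (p : ℤ) :=
          ((Prime.coprime_iff_not_dvd hpZ).2 (fun h => hpq (Int.natCast_dvd_natCast.1 h))).symm
        obtain ⟨u, w, huw⟩ := h1
        refine ⟨u * (n - b), fun i j hd => hn i j ?_⟩
        have h3 : (q : ℤ) * (u * (n - b)) + (b + A i (e i j)) =
            (n + A i (e i j)) - (p : ℤ) * (w * (n - b)) := by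
          have h4 : u * (q : ℤ) = 1 - w * p := by linarith
          calc (q : ℤ) * (u * (n - b)) + (b + A i (e i j)) =
              (u * q) * (n - b) + (b + A i (e i j)) := by ring
            _ = (1 - w * p) * (n - b) + (b + A i (e i j)) := by rw [h4]
            _ = _ := by ring
        simp only at hd
        rw [h3] at hd
        have := dvd_add hd (dvd_mul_right (p : ℤ) (w * (n - b)))
        simpa using this)
    ∅ (fun u hu => absurd hu (notMem_empty _))
  -- for every length one configuration occurs for arbitrarily large `N`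
  have hAX : ∀ (S : Finset (Fin T)) (c : Fin T → Fin K) (l C N : ℕ),
      (∀ S', S' ⊆ S → QX l C N (S'.image (fun g => ((q : ℤ), (b : ℤ) + A g (e g (c g)))))
        ((univ \ S').image (fun g => ((q : ℤ), (b : ℤ) + A g (e g (c g)))) ∪ ∅)) →
      AX q b (univ.image (fun g => A g (e g (c g)))) (S.image (fun g => A g (e g (c g)))) l C N := by
    intro S c l C N h J hJ
    have h1 := h (S.filter (fun g => A g (e g (c g)) ∈ J)) (filter_subset _ _)
    refine QX_anti ?_ ?_ h1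
    · intro f hf
      obtain ⟨y, hy, rfl⟩ := mem_image.1 hf
      obtain ⟨g, hg, hgy⟩ := mem_image.1 (hJ hy)
      refine mem_image.2 ⟨g, mem_filter.2 ⟨hg, ?_⟩, ?_⟩
      · rw [hgy]
        exact hy
      · rw [hgy]
    · intro f hf
      obtain ⟨y, hy, rfl⟩ := mem_image.1 hf
      obtain ⟨hy1, hy2⟩ := Finset.mem_sdiff.1 hy
      obtain ⟨g, -, hgy⟩ := mem_image.1 hy1
      refine mem_union_left _ (mem_image.2 ⟨g, Finset.mem_sdiff.2 ⟨mem_univ _, fun hg => hy2 ?_⟩, ?_⟩)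
      · rw [← hgy]
        exact (mem_filter.1 hg).2
      · rw [hgy]
  have hlen : ∀ l : ℕ, ∃ y : Finset (Fin T) × (Fin T → Fin K), (T : ℝ) ≤ (18 / 5) * (y.1.card : ℝ) ∧
      Nl q b (univ.image (fun g => A g (e g (y.2 g)))) (y.1.image (fun g => A g (e g (y.2 g)))) l := by
    intro l
    obtain ⟨C, hC⟩ := hmain l
    have h1 : ∃ᶠ N : ℕ in atTop, ∃ y : Finset (Fin T) × (Fin T → Fin K),
        (T : ℝ) ≤ (18 / 5) * (y.1.card : ℝ) ∧
        AX q b (univ.image (fun g => A g (e g (y.2 g)))) (y.1.image (fun g => A g (e g (y.2 g)))) l C N := by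
      refine hC.frequently.mono ?_
      rintro N ⟨S, c, h2, h3⟩
      exact ⟨(S, c), h2, hAX S c l C N h3⟩
    rw [frequently_exists] at h1
    obtain ⟨y, hy⟩ := h1
    have hy1 : (T : ℝ) ≤ (18 / 5) * (y.1.card : ℝ) := by
      obtain ⟨N, hN⟩ := hy.exists
      exact hN.1
    exact ⟨y, hy1, nl_of hq _ _ l C (hy.mono fun N hN => hN.2)⟩
  choose Y hY1 hY2 using hlen
  obtain ⟨y, hy⟩ := Finite.exists_infinite_fiber Y
  have hyl : ∀ l : ℕ, Nl q b (univ.image (fun g => A g (e g (y.2 g)))) (y.1.image (fun g => A g (e g (y.2 g)))) l := by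
    intro l
    rw [Set.infinite_coe_iff] at hy
    obtain ⟨l', hl', hll'⟩ := hy.exists_gt l
    have h1 : Y l' = y := hl'
    have h2 := hY2 l'
    rw [h1] at h2
    exact Nl_mono hll'.le h2
  have hyc : (T : ℝ) ≤ (18 / 5) * (y.1.card : ℝ) := by
    rw [Set.infinite_coe_iff] at hy
    obtain ⟨l', hl'⟩ := hy.nonempty
    have h1 : Y l' = y := hl'
    have h2 := hY1 l'
    rw [h1] at h2
    exact h2
  apply (hprop y.2).2.2.2
  refine ⟨y.1.image (fun g => A g (e g (y.2 g))), image_subset_image (subset_univ _), ?_, hyl⟩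
  rw [card_image_of_injective _ (hprop y.2).1]
  exact hyc

/-- **almost all tuples** -/
theorem almost (T : ℕ) (hT : 1 ≤ T) : ∃ (c C : ℝ), 0 < c ∧ 0 < C ∧ ∀ (q b : ℕ), 1 ≤ q →
    ∀ (n : ℕ) (V : Fin T → Finset ℤ), 1 ≤ n → (∀ i, n ≤ (V i).card) →
      ((Exc q b V).card : ℝ) ≤ C / (n : ℝ) ^ c * ∏ i, ((V i).card : ℝ) := by
  obtain ⟨K', hK'⟩ := no_box T hT
  obtain ⟨c, C, hc, -, hC, hbox⟩ := Pool.Agent.N900.FC.box_saving T K'
  refine ⟨c, C, hc, by linarith, ?_⟩
  intro q b hq n V hn hV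
  exact hbox ℤ V n hn hV (Exc q b V) (by
    classical
    unfold Exc
    exact filter_subset _ _) (hK' q b hq V)

end Pool.Agent.P8H6.Nar
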